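import Mathlib
import Pool.Agent.R982.CBSTree

/-!
# Greedy path versus leaf depth in the critical beta-splitting tree

`E[L_n] ~ (3/π²) log² n`, `E[L⁺_n] ~ (6/π²) log² n`, hence `E[L⁺_n] - E[L_n] ~ (3/π²) log² n`.
-/

namespace Pool.Agent.Results.MP_ce738d_pr.GreedyVersusLeafDepth

open Filter Topology Pool.Agent.R982.CBS BinaryTree

lemma meanGreedy_succ (N : ℕ) : meanGreedy (N + 1) = G N := rfl

lemma meanLeafDepth_succ (N : ℕ) : meanLeafDepth (N + 1) = B N := by
  rw [meanLeafDepth, expect, B, DS, Nat.add_sub_cancel, Finset.sum_div]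
  refine Finset.sum_congr rfl fun t ht => ?_
  rw [length_leafDepths, numLeaves_of_mem ht]
  push_cast
  ring

lemma H_div_log : Tendsto (fun N : ℕ => H N / Real.log ((N + 1 : ℕ) : ℝ)) atTop (𝓝 1) := by
  have h1 := Real.tendsto_harmonic_sub_log_add_one
  have hlog : Tendsto (fun N : ℕ => Real.log ((N + 1 : ℕ) : ℝ)) atTop atTop :=
    Real.tendsto_log_atTop.comp (tendsto_natCast_atTop_atTop.comp (tendsto_add_atTop_nat 1))
  have h2 : Tendsto (fun N : ℕ => ((harmonic N : ℝ) - Real.log ((N : ℝ) + 1))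
      / Real.log ((N + 1 : ℕ) : ℝ)) atTop (𝓝 0) := h1.div_atTop hlog
  have h3 : Tendsto (fun N : ℕ => 1 + ((harmonic N : ℝ) - Real.log ((N : ℝ) + 1))
      / Real.log ((N + 1 : ℕ) : ℝ)) atTop (𝓝 (1 + 0)) := tendsto_const_nhds.add h2
  rw [add_zero] at h3
  refine h3.congr' ?_
  filter_upwards [hlog.eventually_gt_atTop 0] with N hN
  rw [H_eq_harmonic]
  push_cast at hN ⊢
  field_simp
  ring

/-- Expected depth of a uniformly random leaf. -/
theorem leafDepth_asymp :
    Tendsto (fun n : ℕ => meanLeafDepth n / Real.log n ^ 2) atTop (𝓝 (3 / Real.pi ^ 2)) := by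
  rw [← tendsto_add_atTop_iff_nat 1]
  have h := B_asymp.mul (H_div_log.pow 2)
  have e : 1 / (2 * (Real.pi ^ 2 / 6)) * 1 ^ 2 = 3 / Real.pi ^ 2 := by
    have := Real.pi_pos
    field_simp
    ring
  rw [e] at h
  refine h.congr' ?_
  filter_upwards [eventually_ge_atTop 1] with N hN
  have hH := H_pos hN
  rw [meanLeafDepth_succ, div_pow]
  field_simp

/-- Expected length of the greedy path. -/
theorem greedy_asymp :
    Tendsto (fun n : ℕ => meanGreedy n / Real.log n ^ 2) atTop (𝓝 (6 / Real.pi ^ 2)) := by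
  rw [← tendsto_add_atTop_iff_nat 1]
  have h := G_asymp.mul (H_div_log.pow 2)
  have e : 1 / (2 * (Real.pi ^ 2 / 12)) * 1 ^ 2 = 6 / Real.pi ^ 2 := by
    have := Real.pi_pos
    field_simp
    ring
  rw [e] at h
  refine h.congr' ?_
  filter_upwards [eventually_ge_atTop 1] with N hN
  have hH := H_pos hN
  rw [meanGreedy_succ, div_pow]
  field_simp

/-- The difference between the expected greedy path length and the expected depth of a uniformly
random leaf is asymptotic to `(3/π²) log² n`. -/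
theorem result :
    Tendsto (fun n : ℕ => (meanGreedy n - meanLeafDepth n) / Real.log n ^ 2) atTop
      (𝓝 (3 / Real.pi ^ 2)) := by
  have h := greedy_asymp.sub leafDepth_asymp
  have e : 6 / Real.pi ^ 2 - 3 / Real.pi ^ 2 = 3 / Real.pi ^ 2 := by ring
  rw [e] at h
  refine h.congr fun n => ?_
  ring

end Pool.Agent.Results.MP_ce738d_pr.GreedyVersusLeafDepth
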