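import Pool.Agent.R977.CB.MD
import Pool.Agent.R977.CB.REC
import Pool.Agent.R977.CB.LOOK
import Pool.Agent.R977.CB.DRIFT
import Pool.Agent.R977.CB.PROB1
import Pool.Agent.R977.CB.PROB2
import Pool.Agent.R977.CB.GAIN
import Pool.Agent.R977.CB.LOW
import Pool.Agent.R977.CB.UPP
import Pool.Agent.R977.CB.FIN

/-!
# Height versus greedy path in the critical beta-splitting tree

`E[L*_n] - E[L⁺_n]` is of order `log² n`.
-/

open Filter Topology

namespace Pool.Agent.Results.MP_ce738d_pr.HeightVersusGreedy

open Pool.Agent.R982.CBS Pool.Agent.R977.CB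

/-- The difference between the expected height and the expected length of the greedy path of DTCS(n) is
between two positive constant multiples of `log² n` for all large `n`. -/
theorem result : ∃ c C : ℝ, 0 < c ∧ 0 < C ∧ ∀ᶠ n : ℕ in atTop,
    c * Real.log n ^ 2 ≤ meanHeight n - meanGreedy n ∧
    meanHeight n - meanGreedy n ≤ C * Real.log n ^ 2 := by
  have hR : StmREC := pieceREC pieceMD
  have hG : StmGAIN := pieceGAIN (pieceLOOK hR) piecePROB1 hR
  have hL : StmLOW := pieceLOW hR pieceDRIFT piecePROB2 hG
  exact pieceFIN hL (pieceUPP pieceMD)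

end Pool.Agent.Results.MP_ce738d_pr.HeightVersusGreedy
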